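import Pool.Agent.Helper75.PX.Stmts5

/-!
# Every central simple algebra of degree four has the four generators
-/

set_option autoImplicit false

universe u

open Module TensorProduct

namespace Pool.Agent.Helper75.PX

theorem C4t_map {K A B : Type u} [Field K] [Ring A] [Algebra K A] [Ring B] [Algebra K B]
    (e : A ≃ₐ[K] B) {α β z w : A} {a b p r : K} {v : Fin 4 → K}
    (h : D4 α β z w a b p r v) : D4 (e α) (e β) (e z) (e w) a b p r v where
  haa := by rw [← map_mul, h.haa, AlgEquiv.commutes]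
  hbb := by rw [← map_mul, h.hbb, AlgEquiv.commutes]
  hab := by rw [← map_mul, h.hab, map_mul]
  hza := by rw [← map_mul, h.hza, map_neg, map_mul]
  hzb := by rw [← map_mul, h.hzb, map_mul]
  hwa := by rw [← map_mul, h.hwa, map_mul]
  hwb := by rw [← map_mul, h.hwb, map_neg, map_mul]
  hzz := by rw [← map_mul, h.hzz, map_add, AlgEquiv.commutes]
  hww := by rw [← map_mul, h.hww, map_add, AlgEquiv.commutes]
  hzw := by
    rw [← map_mul, h.hzw]
    simp only [uE, map_mul, map_add, map_smul, map_one]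
  a0 := h.a0
  b0 := h.b0
  uz := h.uz.map e
  uw := h.uw.map e

/-- one by one matrices -/
def C4t_one (K D : Type u) [Field K] [Ring D] [Algebra K D] :
    Matrix (Fin 1) (Fin 1) D ≃ₐ[K] D where
  toFun M := M 0 0
  invFun d := Matrix.of fun _ _ => d
  left_inv M := by
    ext s t
    rw [Subsingleton.elim s 0, Subsingleton.elim t 0]
    rfl
  right_inv d := rfl
  map_mul' M N := by simp [Matrix.mul_apply]
  map_add' M N := rfl
  commutes' k := by simp [Matrix.algebraMap_matrix_apply]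

theorem st_C4t (hWA : ST_WA.{u}) (hE4 : ST_E4.{u}) (hQ4 : ST_Q4.{u}) (hM4 : ST_M4t.{u}) :
    ST_C4t.{u} := by
  intro K A _ _ _ _ _ hfin h2 h3
  haveI : FiniteDimensional K A := FiniteDimensional.of_finrank_pos (by omega)
  obtain ⟨n, D, iD, iA, hn, hfd, hc, hdim, ⟨e⟩⟩ := hWA K A
  letI := iD
  letI := iA
  haveI := hfd
  haveI := hc
  rw [hfin] at hdim
  have hpos : 0 < finrank K D := finrank_pos
  have hn4 : n ≤ 4 := by
    by_contra hcon
    push Not at hcon
    have h25 : 25 ≤ n ^ 2 := by nlinarith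
    nlinarith
  interval_cases n
  · -- n = 1
    have hD : finrank K D = 16 := by omega
    obtain ⟨α, β, z, w, a, b, p, r, v, h⟩ := hE4 K D hD h2
    let e' : D ≃ₐ[K] A := (C4t_one K D).symm.trans e.symm
    exact ⟨_, _, _, _, a, b, p, r, v, C4t_map e' h⟩
  · -- n = 2
    have hD : finrank K D = 4 := by omega
    obtain ⟨i, j, x, y, hi, hj, hij, hx, hy⟩ := hQ4 K D hD h2
    obtain ⟨α, β, z, w, a, b, p, r, v, h⟩ := hM4 K D h2 h3 i j x y hi hj hij hx hy
    exact ⟨_, _, _, _, a, b, p, r, v, C4t_map e.symm h⟩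
  · -- n = 3
    omega
  · -- n = 4
    have hi : (!![1, 0; 0, -1] : Matrix (Fin 2) (Fin 2) D) * !![1, 0; 0, -1] =
        algebraMap K (Matrix (Fin 2) (Fin 2) D) 1 := by
      rw [map_one]
      ext s t
      fin_cases s <;> fin_cases t <;> simp [Matrix.mul_apply, Fin.sum_univ_two]
    have hj : (!![0, 1; 1, 0] : Matrix (Fin 2) (Fin 2) D) * !![0, 1; 1, 0] =
        algebraMap K (Matrix (Fin 2) (Fin 2) D) 1 := by
      rw [map_one]
      ext s t
      fin_cases s <;> fin_cases t <;> simp [Matrix.mul_apply, Fin.sum_univ_two]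
    have hij : (!![1, 0; 0, -1] : Matrix (Fin 2) (Fin 2) D) * !![0, 1; 1, 0] =
        -(!![0, 1; 1, 0] * !![1, 0; 0, -1]) := by
      ext s t
      fin_cases s <;> fin_cases t <;> simp [Matrix.mul_apply, Fin.sum_univ_two]
    obtain ⟨α, β, z, w, a, b, p, r, v, h⟩ := hM4 K (Matrix (Fin 2) (Fin 2) D) h2 h3 _ _ 1 1
      hi hj hij one_ne_zero one_ne_zero
    let e' : Matrix (Fin 2) (Fin 2) (Matrix (Fin 2) (Fin 2) D) ≃ₐ[K] A :=
      ((Matrix.compAlgEquiv (Fin 2) (Fin 2) D K).trans
        (Matrix.reindexAlgEquiv K D (finProdFinEquiv (m := 2) (n := 2)))).trans e.symm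
    exact ⟨_, _, _, _, a, b, p, r, v, C4t_map e' h⟩

end Pool.Agent.Helper75.PX
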