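import Pool.Agent.Helper75.PX.Stmts

set_option autoImplicit false

universe u

open Module

namespace Pool.Agent.Helper60.PX

open Pool.Agent.Helper75.PX

/-- conjugation by a nonzero element -/
noncomputable def G4_conj (K : Type u) {D : Type u} [Field K] [DivisionRing D] [Algebra K D]
    (α : D) (hα : α ≠ 0) : D →ₐ[K] D where
  toFun x := α * x * α⁻¹
  map_one' := by rw [mul_one, mul_inv_cancel₀ hα]
  map_mul' x y := by
    rw [mul_assoc (α * x), ← mul_assoc α⁻¹, ← mul_assoc α⁻¹, inv_mul_cancel₀ hα, one_mul,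
      ← mul_assoc, ← mul_assoc]
  map_zero' := by rw [mul_zero, zero_mul]
  map_add' x y := by rw [mul_add, add_mul]
  commutes' k := by
    show α * algebraMap K D k * α⁻¹ = algebraMap K D k
    rw [← Algebra.commutes k α, mul_assoc, mul_inv_cancel₀ hα, mul_one]

theorem G4_core (h1 : ST_MPD.{u}) (K D : Type u) [Field K] [DivisionRing D] [Algebra K D]
    [Algebra.IsCentral K D] (h16 : finrank K D = 16) (h2 : (2 : K) ≠ 0) (α z : D) (a : K)
    (_ : α * α = algebraMap K D a) (hz0 : z ≠ 0) (hα : α ≠ 0) (hza : z * α = -(α * z))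
    (hzz : ∀ k : K, z * z ≠ algebraMap K D k) :
    ∃ (β : D) (b p : K), β * β = algebraMap K D b ∧ (∀ k : K, β ≠ algebraMap K D k) ∧
    α * β = β * α ∧ z * β = β * z ∧ z * z = algebraMap K D p + β := by
  have hfd : FiniteDimensional K D := FiniteDimensional.of_finrank_pos (by omega)
  have hdeg : (minpoly K z).natDegree ≤ 4 := h1 K D 4 (by norm_num) (by rw [h16]; norm_num) z
  have hint : IsIntegral K z := Algebra.IsIntegral.isIntegral z
  have hP0 : minpoly K z ≠ 0 := minpoly.ne_zero hint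
  obtain ⟨P, hP⟩ : ∃ P : Polynomial K, P = minpoly K z := ⟨_, rfl⟩
  rw [← hP] at hdeg hP0
  have e1 : Polynomial.aeval z P = 0 := by rw [hP]; exact minpoly.aeval K z
  have hconj : G4_conj K α hα z = -z := by
    show α * z * α⁻¹ = -z
    have : α * z = -(z * α) := by rw [hza, neg_neg]
    rw [this, neg_mul, mul_assoc, mul_inv_cancel₀ hα, mul_one]
  have e2 : Polynomial.aeval (-z) P = 0 := by
    rw [← hconj, Polynomial.aeval_algHom_apply, e1, map_zero]
  rw [Polynomial.aeval_eq_sum_range' (n := 5) (by omega)] at e1 e2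
  simp only [Finset.sum_range_succ, Finset.sum_range_zero, zero_add, pow_zero, pow_one] at e1 e2
  obtain ⟨y, hy⟩ : ∃ y : D, y = z * z := ⟨_, rfl⟩
  have p2 : z ^ 2 = y := by rw [hy, sq]
  have p3 : z ^ 3 = z * y := by rw [hy, pow_succ', sq]
  have p4 : z ^ 4 = y * y := by rw [hy, ← sq, ← sq, ← pow_mul]
  have n2 : (-z) ^ 2 = y := by rw [neg_sq, p2]
  have n3 : (-z) ^ 3 = -(z * y) := by rw [Odd.neg_pow (by decide), p3]
  have n4 : (-z) ^ 4 = y * y := by rw [Even.neg_pow (by decide), p4]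
  rw [p2, p3, p4] at e1
  rw [n2, n3, n4] at e2
  -- odd part
  have odd : P.coeff 1 • z + P.coeff 3 • (z * y) = 0 := by
    have h3 : (2 : K) • (P.coeff 1 • z + P.coeff 3 • (z * y)) = 0 := by
      have h4 : (2 : K) • (P.coeff 1 • z + P.coeff 3 • (z * y)) =
          (P.coeff 0 • (1 : D) + P.coeff 1 • z + P.coeff 2 • y + P.coeff 3 • (z * y) +
            P.coeff 4 • (y * y)) -
          (P.coeff 0 • (1 : D) + P.coeff 1 • -z + P.coeff 2 • y + P.coeff 3 • -(z * y) +
            P.coeff 4 • (y * y)) := by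
        module
      rw [h4, e1, e2, sub_zero]
    exact (smul_eq_zero.mp h3).resolve_left h2
  have odd2 : P.coeff 1 • (1 : D) + P.coeff 3 • y = 0 := by
    have h3 : z * (P.coeff 1 • (1 : D) + P.coeff 3 • y) = 0 := by
      rw [mul_add, mul_smul_comm, mul_smul_comm, mul_one]; exact odd
    exact (mul_eq_zero.mp h3).resolve_left hz0
  have hyk : ∀ k : K, y ≠ k • (1 : D) := by
    intro k hk
    apply hzz k
    rw [← hy, hk, Algebra.algebraMap_eq_smul_one]
  have c3 : P.coeff 3 = 0 := by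
    by_contra hc
    apply hyk (-(P.coeff 3)⁻¹ * P.coeff 1)
    have h4 : (P.coeff 3)⁻¹ • (P.coeff 1 • (1 : D) + P.coeff 3 • y) = 0 := by
      rw [odd2, smul_zero]
    rw [smul_add, smul_smul, smul_smul, inv_mul_cancel₀ hc, one_smul] at h4
    rw [neg_mul, neg_smul]
    exact eq_neg_of_add_eq_zero_right h4
  have c1 : P.coeff 1 = 0 := by
    rw [c3, zero_smul, add_zero] at odd2
    exact (smul_eq_zero.mp odd2).resolve_right one_ne_zero
  rw [c3, c1, zero_smul, zero_smul, add_zero, add_zero] at e1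
  -- leading coefficient
  have c4 : P.coeff 4 ≠ 0 := by
    intro c4
    rw [c4, zero_smul, add_zero] at e1
    have c2 : P.coeff 2 = 0 := by
      by_contra hc
      apply hyk (-(P.coeff 2)⁻¹ * P.coeff 0)
      have h4 : (P.coeff 2)⁻¹ • (P.coeff 0 • (1 : D) + P.coeff 2 • y) = 0 := by
        rw [e1, smul_zero]
      rw [smul_add, smul_smul, smul_smul, inv_mul_cancel₀ hc, one_smul] at h4
      rw [neg_mul, neg_smul]
      exact eq_neg_of_add_eq_zero_right h4
    rw [c2, zero_smul, add_zero] at e1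
    have c0 : P.coeff 0 = 0 := (smul_eq_zero.mp e1).resolve_right one_ne_zero
    apply hP0
    ext n
    rw [Polynomial.coeff_zero]
    by_cases hn : n ≤ 4
    · interval_cases n
      · exact c0
      · exact c1
      · exact c2
      · exact c3
      · exact c4
    · exact Polynomial.coeff_eq_zero_of_natDegree_lt (by omega)
  obtain ⟨s, hs⟩ : ∃ s : K, s = (P.coeff 4)⁻¹ * P.coeff 2 := ⟨_, rfl⟩
  obtain ⟨t, ht⟩ : ∃ t : K, t = (P.coeff 4)⁻¹ * P.coeff 0 := ⟨_, rfl⟩
  have key : t • (1 : D) + s • y + y * y = 0 := by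
    have h4 : (P.coeff 4)⁻¹ • (P.coeff 0 • (1 : D) + P.coeff 2 • y + P.coeff 4 • (y * y)) = 0 := by
      rw [e1, smul_zero]
    rw [smul_add, smul_add, smul_smul, smul_smul, smul_smul, inv_mul_cancel₀ c4, one_smul,
      ← hs, ← ht] at h4
    exact h4
  obtain ⟨q, hq⟩ : ∃ q : K, q + q = s := ⟨s / 2, by field_simp; ring⟩
  refine ⟨y + q • (1 : D), q * q - t, -q, ?_, ?_, ?_, ?_, ?_⟩
  · rw [Algebra.algebraMap_eq_smul_one]
    have h5 : (y + q • (1 : D)) * (y + q • (1 : D)) =
        (t • (1 : D) + s • y + y * y) + (q * q - t) • (1 : D) := by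
      rw [mul_add, add_mul, add_mul, smul_one_mul, smul_one_mul, mul_smul_comm, mul_one, smul_smul,
        ← hq]
      module
    rw [h5, key, zero_add]
  · intro k hk
    apply hyk (k - q)
    rw [Algebra.algebraMap_eq_smul_one] at hk
    rw [sub_smul, ← hk]
    abel
  · have h5 : α * y = y * α := by
      have h6 : α * z = -(z * α) := by rw [hza, neg_neg]
      rw [hy, ← mul_assoc, h6, neg_mul, mul_assoc z α z, h6, mul_neg, neg_neg, mul_assoc]
    rw [mul_add, add_mul, h5, mul_smul_comm, smul_mul_assoc, mul_one, one_mul]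
  · rw [mul_add, add_mul, mul_smul_comm, smul_mul_assoc, mul_one, one_mul, hy, mul_assoc]
  · rw [← hy, Algebra.algebraMap_eq_smul_one]
    rw [neg_smul]
    abel

theorem st_G4 (h1 : ST_MPD.{u}) (_ : ST_MDV.{u}) : ST_G4.{u} :=
  fun K D _ _ _ _ h16 h2 α z a haa hz0 hα hza hzz =>
    G4_core h1 K D h16 h2 α z a haa hz0 hα hza hzz

end Pool.Agent.Helper60.PX
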