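import Pool.Agent.Helper75.PX.Stmts3

set_option autoImplicit false

universe u

namespace Pool.Agent.Helper75.PX

theorem st_SC2 : ST_SC2.{u} := by
  intro K A _ _ _ i j a b f g hf hg h
  refine ⟨?_, ?_, ?_, ?_, ?_⟩
  · rw [smul_mul_smul_comm, h.hi, mul_comm a, map_mul, Algebra.smul_def, pow_two]
  · rw [smul_mul_smul_comm, h.hj, mul_comm b, map_mul, Algebra.smul_def, pow_two]
  · rw [smul_mul_smul_comm, smul_mul_smul_comm, h.hij, smul_neg, mul_comm f g]
  · exact mul_ne_zero h.a0 (pow_ne_zero 2 hf)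
  · exact mul_ne_zero h.b0 (pow_ne_zero 2 hg)

end Pool.Agent.Helper75.PX
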